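import Pool.Agent.helper38.AT.Spec
import Pool.Agent.helper61.MK.CR

/-!
# Row bq:CRG
-/

set_option autoImplicit false

namespace Pool.Agent.AT

open Finset Real Pool.Agent.helper39.MT Pool.Agent.helper85.FC Pool.Agent.MK

theorem CRG : CRG_stmt := by
  classical
  intro kc k κ I v lm a G t hk ha hG ht hv hlm h1 h2 h3 h4 h5 h6
  have hk0 : (1 : ℝ) ≤ k := by exact_mod_cast hk
  set F : Fin k → Finset (Fin (4 * kc)) := fun j => univ.filter (fun i => κ i = j) with hF
  set U : Fin k → ℕ → ℝ := fun j n => ∑ i ∈ F j, lm i n with hU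
  have hU0 : ∀ j n, 0 ≤ U j n := fun j n => sum_nonneg fun x _ => hlm _ _
  set X : Fin k → ℝ := fun j => ∑ n ∈ I, v n * U j n with hX
  set Y : Fin k → ℝ := fun j => ∑ n ∈ I, v n * U j n ^ 2 with hY
  set s : Fin k → ℝ := fun j => ∑ n ∈ I, if U j n = 0 then 0 else v n with hs
  have hFc : ∀ j, 10 ^ 5 * a * G ≤ (#(F j) : ℝ) * t := by
    intro j
    have := h5 j
    simpa [hF] using this
  have hXe : ∀ j, X j = ∑ i ∈ F j, ∑ n ∈ I, v n * lm i n := by
    intro j
    simp only [hX, hU, mul_sum]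
    rw [sum_comm]
  have hXlow : ∀ j, (1 - 1 / 10 ^ 5) * (#(F j) * t) ≤ X j := by
    intro j
    rw [hXe]
    have h7 := card_nsmul_le_sum (F j)
      (fun i => ∑ n ∈ I, v n * lm i n) ((1 - 1 / 10 ^ 5) * t) (fun i _ => h2 i)
    rw [nsmul_eq_mul] at h7
    linarith
  have hYup : ∀ j, Y j ≤ (1 + 1 / 10 ^ 5) * a * X j + (4 - 1 / 4000) * (#(F j) * t) ^ 2 / G := by
    intro j
    have e : Y j = ∑ x ∈ F j, ∑ x' ∈ F j, ∑ n ∈ I, v n * (lm x n * lm x' n) := by
      have e1 : ∀ n, v n * U j n ^ 2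
          = ∑ x ∈ F j, ∑ x' ∈ F j, v n * (lm x n * lm x' n) := by
        intro n
        simp only [hU]
        rw [sq, sum_mul_sum, mul_sum]
        refine sum_congr rfl fun x _ => ?_
        rw [mul_sum]
      simp only [hY, e1]
      rw [sum_comm]
      refine sum_congr rfl fun x _ => ?_
      rw [sum_comm]
    rw [e]
    have hb : ∀ x ∈ F j, ∀ x' ∈ F j, ∑ n ∈ I, v n * (lm x n * lm x' n)
        ≤ (if x = x' then (1 + 1 / 10 ^ 5) * a * ∑ n ∈ I, v n * lm x n else 0)
          + (4 - 1 / 4000) * t ^ 2 / G := by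
      intro x _ x' _
      have h0 : 0 ≤ (4 - 1 / 4000) * t ^ 2 / G := by
        have h00 : (0 : ℝ) ≤ 4 - 1 / 4000 := by norm_num
        positivity
      by_cases hx : x = x'
      · rw [if_pos hx, ← hx]
        refine le_trans ?_ (le_add_of_nonneg_right h0)
        rw [mul_sum]
        refine sum_le_sum fun n hn => ?_
        rcases eq_or_ne (v n) 0 with hvn | hvn
        · rw [hvn]; simp
        · have h7 := h3 x n hn hvn
          have h8 := hlm x n
          have h9 := hv n hn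
          have h10 : 0 ≤ v n * lm x n := mul_nonneg h9 h8
          nlinarith
      · rw [if_neg hx, zero_add]
        exact h4 _ _ hx
    calc ∑ x ∈ F j, ∑ x' ∈ F j, ∑ n ∈ I, v n * (lm x n * lm x' n)
        ≤ ∑ x ∈ F j, ∑ x' ∈ F j,
          ((if x = x' then (1 + 1 / 10 ^ 5) * a * ∑ n ∈ I, v n * lm x n else 0)
            + (4 - 1 / 4000) * t ^ 2 / G) :=
          sum_le_sum fun x hx => sum_le_sum fun x' hx' => hb x hx x' hx'
      _ = ∑ x ∈ F j, ((1 + 1 / 10 ^ 5) * a * (∑ n ∈ I, v n * lm x n)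
            + #(F j) * ((4 - 1 / 4000) * t ^ 2 / G)) := by
          refine sum_congr rfl fun x hx => ?_
          rw [sum_add_distrib, sum_ite_eq, if_pos hx, sum_const, nsmul_eq_mul]
      _ = (1 + 1 / 10 ^ 5) * a * X j + #(F j) * (#(F j) * ((4 - 1 / 4000) * t ^ 2 / G)) := by
          rw [sum_add_distrib, ← mul_sum, ← hXe, sum_const, nsmul_eq_mul]
      _ = _ := by ring
  have hs0 : ∀ j, 0 ≤ s j := fun j => sum_nonneg fun n hn => by
    split_ifs
    · exact le_rfl
    · exact hv n hn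
  have hCS : ∀ j, X j ^ 2 ≤ s j * Y j := by
    intro j
    refine sum_sq_le_sum_mul_sum_of_sq_le_mul I (fun n hn => ?_) (fun n hn => ?_)
      (fun n hn => le_of_eq ?_)
    · split_ifs
      · exact le_rfl
      · exact hv n hn
    · exact mul_nonneg (hv n hn) (sq_nonneg _)
    · split_ifs with h
      · rw [h]; ring
      · ring
  have hU1 : ∀ j n, U j n ≠ 0 → ∃ i, κ i = j ∧ lm i n ≠ 0 := by
    intro j n h
    obtain ⟨i, hi, hi0⟩ := exists_ne_zero_of_sum_ne_zero h
    refine ⟨i, ?_, hi0⟩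
    simpa [hF] using hi
  have hsum : ∑ j, s j ≤ (1 / 4 + 1 / 500000) * k * ((1 + 1 / 10 ^ 5) * G) := by
    have hb : ∑ j, s j ≤ ∑ n ∈ I, (1 / 4 + 1 / 500000) * k * v n := by
      simp only [hs]
      rw [sum_comm]
      refine sum_le_sum fun n hn => ?_
      rcases eq_or_ne (v n) 0 with hvn | hvn
      · rw [hvn]; simp
      have h7 : (∑ j : Fin k, if U j n = 0 then (0 : ℝ) else v n)
          ≤ ∑ j : Fin k, if (∃ i, κ i = j ∧ lm i n ≠ 0) then v n else 0 := by
        refine sum_le_sum fun j _ => ?_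
        by_cases hj : U j n = 0
        · rw [if_pos hj]
          split_ifs
          · exact hv n hn
          · exact le_rfl
        · rw [if_neg hj, if_pos (hU1 j n hj)]
      have h8 : (∑ j : Fin k, if (∃ i, κ i = j ∧ lm i n ≠ 0) then v n else 0)
          = (#{j : Fin k | ∃ i, κ i = j ∧ lm i n ≠ 0} : ℝ) * v n := by
        rw [← sum_filter, sum_const, nsmul_eq_mul]
      have h9 := h6 n hn hvn
      refine h7.trans (h8.le.trans ?_)
      refine mul_le_mul_of_nonneg_right ?_ (hv n hn)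
      refine le_trans (le_of_eq ?_) h9
      congr 1
    rw [← mul_sum] at hb
    refine hb.trans ?_
    exact mul_le_mul_of_nonneg_left h1 (by positivity)
  have hlow : ∀ j, (1 + 2 / 10 ^ 5) / 4 * G ≤ s j := by
    intro j
    have hP0 : 0 < (#(F j) : ℝ) * t := by
      refine lt_of_lt_of_le ?_ (hFc j)
      positivity
    exact CR_arith hG ha hP0 (hFc j) (hXlow j) (hYup j) (hCS j) (hs0 j)
  have h7 : ∑ j : Fin k, (1 + 2 / 10 ^ 5) / 4 * G ≤ ∑ j, s j := sum_le_sum fun j _ => hlow j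
  rw [sum_const, card_univ, Fintype.card_fin, nsmul_eq_mul] at h7
  have h8 : (k : ℝ) * ((1 + 2 / 10 ^ 5) / 4 * G) ≤ (1 / 4 + 1 / 500000) * k * ((1 + 1 / 10 ^ 5) * G) :=
    h7.trans hsum
  have h9 : 0 < (k : ℝ) * G := by positivity
  have h10 : ((1 + 2 / 10 ^ 5) / 4 - (1 / 4 + 1 / 500000) * (1 + 1 / 10 ^ 5)) * ((k : ℝ) * G) ≤ 0 := by
    linarith
  norm_num at h10
  linarith

end Pool.Agent.AT
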