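import Pool.Agent.helper38.AT.Spec

/-!
# Row bq:KSB

The box lemma.
-/

set_option autoImplicit false

namespace Pool.Agent.AT

open Finset Real

theorem KSB_choose (K : ℕ) : ∀ n : ℕ, K ≤ n → ((n : ℝ) / K) ^ K ≤ (n.choose K : ℝ) := by
  induction K with
  | zero => intro n _; simp
  | succ K ih =>
    intro n hn
    obtain ⟨m, rfl⟩ : ∃ m, n = m + 1 := ⟨n - 1, by omega⟩
    have hm : K ≤ m := by omega
    have h1 := ih m hm
    have h2 : ((m + 1 : ℕ) : ℝ) * (m.choose K : ℝ) = ((m + 1).choose (K + 1) : ℝ) * ((K + 1 : ℕ) : ℝ) := by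
      exact_mod_cast Nat.add_one_mul_choose_eq m K
    have hK : (0 : ℝ) < ((K + 1 : ℕ) : ℝ) := by positivity
    have h3 : ((m + 1).choose (K + 1) : ℝ) = ((m + 1 : ℕ) : ℝ) / ((K + 1 : ℕ) : ℝ) * (m.choose K : ℝ) := by
      field_simp
      linarith
    have h4 : (((m + 1 : ℕ) : ℝ) / ((K + 1 : ℕ) : ℝ)) ^ K ≤ (m.choose K : ℝ) := by
      rcases Nat.eq_zero_or_pos K with hK0 | hK0
      · subst hK0; simp
      refine le_trans ?_ h1
      refine pow_le_pow_left₀ (by positivity) ?_ K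
      have hK1 : (0 : ℝ) < (K : ℝ) := by exact_mod_cast hK0
      rw [div_le_div_iff₀ hK hK1]
      have : (K : ℝ) ≤ m := by exact_mod_cast hm
      push_cast
      nlinarith
    rw [h3, pow_succ, mul_comm]
    exact mul_le_mul_of_nonneg_left h4 (by positivity)

open Classical in
/-- the fibre over `y` -/
noncomputable def KSB_fib {k : ℕ} {α : Type} (X0 : Finset α) (E : Finset (Fin (k + 1) → α)) (y : Fin k → α) : Finset α :=
  {x ∈ X0 | (Fin.cons x y : Fin (k + 1) → α) ∈ E}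

open Classical in
/-- the section over `S` -/
noncomputable def KSB_sec {k : ℕ} {α : Type} (Y : Finset (Fin k → α)) (E : Finset (Fin (k + 1) → α)) (S : Finset α) :
    Finset (Fin k → α) :=
  {y ∈ Y | ∀ x ∈ S, (Fin.cons x y : Fin (k + 1) → α) ∈ E}

theorem KSB_card {k : ℕ} {α : Type} (X : Fin (k + 1) → Finset α) (E : Finset (Fin (k + 1) → α))
    (hE : E ⊆ Fintype.piFinset X) :
    #E ≤ ∑ y ∈ Fintype.piFinset (fun i : Fin k => X i.succ), #(KSB_fib (X 0) E y) := by
  classical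
  have h1 : ∀ f ∈ E, (fun i : Fin k => f i.succ) ∈ Fintype.piFinset (fun i : Fin k => X i.succ) := by
    intro f hf
    rw [Fintype.mem_piFinset]
    intro i
    exact Fintype.mem_piFinset.1 (hE hf) i.succ
  rw [card_eq_sum_card_fiberwise (f := fun f : Fin (k + 1) → α => (fun i : Fin k => f i.succ))
    (t := Fintype.piFinset (fun i : Fin k => X i.succ)) h1]
  refine sum_le_sum fun y _ => ?_
  refine card_le_card_of_injOn (fun f => f 0) ?_ ?_
  · intro f hf
    have hf' := mem_filter.1 (mem_coe.1 hf)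
    have e : (Fin.cons (f 0) y : Fin (k + 1) → α) = f := by
      rw [← hf'.2]
      exact Fin.cons_self_tail f
    refine mem_coe.2 (mem_filter.2 ⟨Fintype.mem_piFinset.1 (hE hf'.1) 0, ?_⟩)
    rw [e]
    exact hf'.1
  · intro f hf g hg hfg
    have hf' := mem_filter.1 (mem_coe.1 hf)
    have hg' := mem_filter.1 (mem_coe.1 hg)
    funext i
    refine Fin.cases hfg (fun j => ?_) i
    have := congrFun (hf'.2.trans hg'.2.symm) j
    exact this

theorem KSB_double {k : ℕ} {α : Type} (K : ℕ) (X0 : Finset α) (Y : Finset (Fin k → α))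
    (E : Finset (Fin (k + 1) → α)) :
    ∑ y ∈ Y, (#(KSB_fib X0 E y)).choose K = ∑ S ∈ powersetCard K X0, #(KSB_sec Y E S) := by
  classical
  have h1 : ∀ y ∈ Y, (#(KSB_fib X0 E y)).choose K =
      #{S ∈ powersetCard K X0 | ∀ x ∈ S, (Fin.cons x y : Fin (k + 1) → α) ∈ E} := by
    intro y _
    rw [← card_powersetCard]
    refine congrArg card ?_
    ext S
    simp only [mem_powersetCard, mem_filter, KSB_fib, subset_iff]
    constructor
    · rintro ⟨h2, h3⟩
      exact ⟨⟨fun x hx => (h2 hx).1, h3⟩, fun x hx => (h2 hx).2⟩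
    · rintro ⟨⟨h2, h3⟩, h4⟩
      exact ⟨fun x hx => ⟨h2 hx, h4 x hx⟩, h3⟩
  rw [sum_congr rfl h1]
  simp only [card_filter, KSB_sec]
  rw [sum_comm]

theorem KSB_step {k : ℕ} {α : Type} {K : ℕ} (hK : 1 ≤ K) {C' δ' : ℝ} (hC' : 0 < C') (hδ' : 0 < δ')
    (hδ1 : δ' ≤ 1) (X : Fin (k + 1) → Finset α) (L : ℕ) (hL : 1 ≤ L) (hX : ∀ i, L ≤ #(X i))
    (E : Finset (Fin (k + 1) → α)) (hE : E ⊆ Fintype.piFinset X)
    (hbig : (2 * K * (C' + 1)) * (∏ i, (#(X i) : ℝ)) * (L : ℝ) ^ (-(δ' / (K + 1))) < #E) :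
    ∃ S ⊆ X 0, #S = K ∧ C' * (∏ i : Fin k, (#(X i.succ) : ℝ)) * (L : ℝ) ^ (-δ') <
      #(KSB_sec (Fintype.piFinset (fun i : Fin k => X i.succ)) E S) := by
  classical
  by_contra hcon
  push Not at hcon
  obtain ⟨Y, hY⟩ : ∃ Y, Y = Fintype.piFinset (fun i : Fin k => X i.succ) := ⟨_, rfl⟩
  rw [← hY] at hcon
  have hKr : (1 : ℝ) ≤ K := by exact_mod_cast hK
  have hLr : (1 : ℝ) ≤ L := by exact_mod_cast hL
  have hL0 : (0 : ℝ) < L := by linarith
  obtain ⟨N, hN⟩ : ∃ N : ℝ, N = (#(X 0) : ℝ) := ⟨_, rfl⟩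
  have hNL : (L : ℝ) ≤ N := by
    rw [hN]; exact_mod_cast hX 0
  have hN0 : 0 < N := by linarith
  obtain ⟨M, hM⟩ : ∃ M : ℝ, M = ∏ i : Fin k, (#(X i.succ) : ℝ) := ⟨_, rfl⟩
  rw [← hM] at hcon
  have hM0 : 0 < M := by
    rw [hM]
    refine prod_pos fun i _ => ?_
    have : (L : ℝ) ≤ (#(X i.succ) : ℝ) := by exact_mod_cast hX i.succ
    linarith
  have hYM : (#Y : ℝ) = M := by
    rw [hY, Fintype.card_piFinset, hM]
    push_cast
    rfl
  have hprod : ∏ i, (#(X i) : ℝ) = N * M := by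
    rw [Fin.prod_univ_succ, hN, hM]
  rw [hprod] at hbig
  obtain ⟨δ, hδ⟩ : ∃ δ : ℝ, δ = δ' / (K + 1) := ⟨_, rfl⟩
  rw [← hδ] at hbig
  have hδ0 : 0 < δ := by rw [hδ]; positivity
  have hδle : δ ≤ 1 := by
    rw [hδ, div_le_one (by positivity)]
    linarith
  obtain ⟨q, hq⟩ : ∃ q : ℝ, q = (L : ℝ) ^ (-δ) := ⟨_, rfl⟩
  rw [← hq] at hbig
  have hq0 : 0 < q := by rw [hq]; exact Real.rpow_pos_of_pos hL0 _
  have hqL : 1 ≤ N * q := by
    have h1 : (L : ℝ) ^ (-(1 : ℝ)) ≤ q := by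
      rw [hq]
      exact Real.rpow_le_rpow_of_exponent_le hLr (by linarith)
    rw [Real.rpow_neg_one] at h1
    calc (1 : ℝ) = L * (L : ℝ)⁻¹ := by field_simp
      _ ≤ N * q := mul_le_mul hNL h1 (by positivity) hN0.le
  have hq' : q ^ (K + 1) = (L : ℝ) ^ (-δ') := by
    rw [hq, ← Real.rpow_natCast, ← Real.rpow_mul hL0.le]
    congr 1
    rw [hδ]
    push_cast
    field_simp
  obtain ⟨d, hd⟩ : ∃ d : (Fin k → α) → ℝ, ∀ y, d y = (#(KSB_fib (X 0) E y) : ℝ) := ⟨_, fun _ => rfl⟩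
  have hdN : ∀ y, d y ≤ N := by
    intro y
    have : #(KSB_fib (X 0) E y) ≤ #(X 0) := card_filter_le _ _
    rw [hd, hN]
    exact_mod_cast this
  have hd0 : ∀ y, 0 ≤ d y := fun y => by rw [hd]; exact Nat.cast_nonneg _
  have hsumd : (#E : ℝ) ≤ ∑ y ∈ Y, d y := by
    have := KSB_card X E hE
    rw [← hY] at this
    have h2 : ((#E : ℕ) : ℝ) ≤ ((∑ y ∈ Y, #(KSB_fib (X 0) E y) : ℕ) : ℝ) := by exact_mod_cast this
    rw [Nat.cast_sum] at h2
    refine h2.trans (le_of_eq (sum_congr rfl fun y _ => (hd y).symm))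
  -- lower bound
  obtain ⟨D, hD⟩ : ∃ D : ℝ, D = #E / M := ⟨_, rfl⟩
  have hED : (#E : ℝ) = D * M := by rw [hD]; field_simp
  have hD1 : (2 * K * (C' + 1)) * (N * q) < D := by
    rw [hD, lt_div_iff₀ hM0]
    calc (2 * K * (C' + 1)) * (N * q) * M = (2 * K * (C' + 1)) * (N * M) * q := by ring
      _ < #E := hbig
  have hD2 : 2 * (K : ℝ) ≤ D := by
    refine le_trans ?_ hD1.le
    have h1 : (2 * (K : ℝ)) * 1 ≤ (2 * (K : ℝ)) * ((C' + 1) * (N * q)) := by
      refine mul_le_mul_of_nonneg_left ?_ (by positivity)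
      nlinarith
    linarith
  have hD0 : 0 < D := by linarith
  obtain ⟨G, hG⟩ : ∃ G, G = Y.filter (fun y => D / 2 ≤ d y) := ⟨_, rfl⟩
  have hG1 : (#E : ℝ) / 2 ≤ ∑ y ∈ G, d y := by
    have h1 : ∑ y ∈ Y, d y = ∑ y ∈ G, d y + ∑ y ∈ Y.filter (fun y => ¬ (D / 2 ≤ d y)), d y := by
      rw [hG, sum_filter_add_sum_filter_not]
    have h2 : ∑ y ∈ Y.filter (fun y => ¬ (D / 2 ≤ d y)), d y ≤ M * (D / 2) := by
      calc ∑ y ∈ Y.filter (fun y => ¬ (D / 2 ≤ d y)), d y
          ≤ ∑ y ∈ Y.filter (fun y => ¬ (D / 2 ≤ d y)), D / 2 :=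
            sum_le_sum fun y hy => (not_le.1 (mem_filter.1 hy).2).le
        _ = #(Y.filter (fun y => ¬ (D / 2 ≤ d y))) * (D / 2) := by rw [sum_const, nsmul_eq_mul]
        _ ≤ #Y * (D / 2) := by
            refine mul_le_mul_of_nonneg_right ?_ (by positivity)
            exact_mod_cast card_filter_le _ _
        _ = M * (D / 2) := by rw [hYM]
    rw [hED]
    rw [hED, h1] at hsumd
    linarith
  have hG2 : D * M / (2 * N) ≤ #G := by
    rw [div_le_iff₀ (by positivity)]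
    have h1 : ∑ y ∈ G, d y ≤ #G * N := by
      calc ∑ y ∈ G, d y ≤ ∑ y ∈ G, N := sum_le_sum fun y _ => hdN y
        _ = #G * N := by rw [sum_const, nsmul_eq_mul]
    rw [hED] at hG1
    nlinarith
  have hlow : (#G : ℝ) * (D / (2 * K)) ^ K ≤
      ∑ y ∈ Y, ((#(KSB_fib (X 0) E y)).choose K : ℝ) := by
    calc (#G : ℝ) * (D / (2 * K)) ^ K = ∑ y ∈ G, (D / (2 * K)) ^ K := by
          rw [sum_const, nsmul_eq_mul]
      _ ≤ ∑ y ∈ G, ((#(KSB_fib (X 0) E y)).choose K : ℝ) := by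
          refine sum_le_sum fun y hy => ?_
          rw [hG] at hy
          have h1 : D / 2 ≤ d y := (mem_filter.1 hy).2
          have h2 : K ≤ #(KSB_fib (X 0) E y) := by
            have : (K : ℝ) ≤ d y := by linarith
            rw [hd] at this
            exact_mod_cast this
          refine le_trans ?_ (KSB_choose K _ h2)
          refine pow_le_pow_left₀ (by positivity) ?_ K
          have h3 : D / (2 * K) = (D / 2) / K := by rw [div_div]
          rw [h3, ← hd]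
          exact div_le_div_of_nonneg_right h1 (by positivity)
      _ ≤ ∑ y ∈ Y, ((#(KSB_fib (X 0) E y)).choose K : ℝ) := by
          rw [hG]
          exact sum_le_sum_of_subset_of_nonneg (filter_subset _ _) fun _ _ _ => Nat.cast_nonneg _
  -- upper bound
  have hup : ∑ y ∈ Y, ((#(KSB_fib (X 0) E y)).choose K : ℝ) ≤ N ^ K * (C' * M * (L : ℝ) ^ (-δ')) := by
    have h1 := KSB_double K (X 0) Y E
    have h2 : ∑ y ∈ Y, ((#(KSB_fib (X 0) E y)).choose K : ℝ)
        = ∑ S ∈ powersetCard K (X 0), (#(KSB_sec Y E S) : ℝ) := by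
      exact_mod_cast h1
    rw [h2]
    calc ∑ S ∈ powersetCard K (X 0), (#(KSB_sec Y E S) : ℝ)
        ≤ ∑ S ∈ powersetCard K (X 0), C' * M * (L : ℝ) ^ (-δ') := by
          refine sum_le_sum fun S hS => ?_
          have hS' := mem_powersetCard.1 hS
          exact hcon S hS'.1 hS'.2
      _ = ((#(X 0)).choose K : ℝ) * (C' * M * (L : ℝ) ^ (-δ')) := by
          rw [sum_const, nsmul_eq_mul, card_powersetCard]
      _ ≤ N ^ K * (C' * M * (L : ℝ) ^ (-δ')) := by
          refine mul_le_mul_of_nonneg_right ?_ (by positivity)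
          rw [hN]
          exact_mod_cast Nat.choose_le_pow (#(X 0)) K
  have hfin := hlow.trans hup
  have h1 : D * M / (2 * N) * (D / (2 * K)) ^ K ≤ (#G : ℝ) * (D / (2 * K)) ^ K :=
    mul_le_mul_of_nonneg_right hG2 (by positivity)
  have h2 := h1.trans hfin
  -- lower bound of the left side
  have h3 : (C' + 1) * (N * q) ≤ D / (2 * K) := by
    rw [le_div_iff₀ (by positivity)]
    nlinarith
  have h4 : ((C' + 1) * (N * q)) ^ K ≤ (D / (2 * K)) ^ K := pow_le_pow_left₀ (by positivity) h3 K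
  have h5 : (C' + 1) * q * M ≤ D * M / (2 * N) := by
    rw [le_div_iff₀ (by positivity)]
    have h6 : 2 * (C' + 1) * (N * q) ≤ D := by
      refine le_trans ?_ hD1.le
      have : 2 * (C' + 1) * (N * q) * 1 ≤ 2 * (C' + 1) * (N * q) * K :=
        mul_le_mul_of_nonneg_left hKr (by positivity)
      linarith
    have h7 : 2 * (C' + 1) * (N * q) * M ≤ D * M := mul_le_mul_of_nonneg_right h6 hM0.le
    linarith
  have h6 : (C' + 1) * q * M * ((C' + 1) * (N * q)) ^ K ≤ N ^ K * (C' * M * (L : ℝ) ^ (-δ')) :=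
    (mul_le_mul h5 h4 (by positivity) (by positivity)).trans h2
  have h7 : (C' + 1) * q * M * ((C' + 1) * (N * q)) ^ K
      = (C' + 1) ^ (K + 1) * (N ^ K * M * q ^ (K + 1)) := by
    rw [mul_pow, mul_pow, pow_succ, pow_succ]
    ring
  rw [h7, hq'] at h6
  have h8 : 0 < N ^ K * M * (L : ℝ) ^ (-δ') := by positivity
  have h9 : (C' + 1) ^ 1 ≤ (C' + 1) ^ (K + 1) := pow_le_pow_right₀ (by linarith) (by omega)
  rw [pow_one] at h9
  have h10 : (C' + 1) * (N ^ K * M * (L : ℝ) ^ (-δ')) ≤ (C' + 1) ^ (K + 1) * (N ^ K * M * (L : ℝ) ^ (-δ')) :=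
    mul_le_mul_of_nonneg_right h9 h8.le
  nlinarith

theorem KSB : KSB_stmt := by
  classical
  intro K k hK
  induction k with
  | zero =>
    refine ⟨1, 1, one_pos, one_pos, le_rfl, ?_⟩
    intro α X L hL _ E _ hbig
    have hE0 : 0 < #E := by
      have h1 : (0 : ℝ) < #E := by
        refine lt_of_le_of_lt ?_ hbig
        positivity
      exact_mod_cast h1
    obtain ⟨e, he⟩ := card_pos.1 hE0
    refine ⟨fun i => i.elim0, fun i => i.elim0, ?_⟩
    intro f _
    have : f = e := funext fun i => i.elim0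
    rw [this]
    exact he
  | succ k ih =>
    obtain ⟨C', δ', hC', hδ', hδ1, hind⟩ := ih
    have hKr : (1 : ℝ) ≤ K := by exact_mod_cast hK
    refine ⟨2 * K * (C' + 1), δ' / (K + 1), by positivity, by positivity, ?_, ?_⟩
    · rw [div_le_one (by positivity)]
      linarith
    intro α X L hL hX E hE hbig
    obtain ⟨S, hS, hSK, hSbig⟩ := KSB_step hK hC' hδ' hδ1 X L hL hX E hE hbig
    obtain ⟨H', hH', hH'E⟩ := hind α (fun i => X i.succ) L hL (fun i => hX i.succ)
      (KSB_sec (Fintype.piFinset (fun i : Fin k => X i.succ)) E S)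
      (by unfold KSB_sec; exact filter_subset _ _) hSbig
    refine ⟨Fin.cons S H', ?_, ?_⟩
    · intro i
      refine Fin.cases ⟨hS, hSK⟩ (fun j => ?_) i
      simpa using hH' j
    · intro f hf
      have hf' := Fintype.mem_piFinset.1 hf
      have h0 : f 0 ∈ S := by simpa using hf' 0
      have h1 : (fun i : Fin k => f i.succ) ∈ Fintype.piFinset H' := by
        rw [Fintype.mem_piFinset]
        intro i
        simpa using hf' i.succ
      have h3 := hH'E h1
      unfold KSB_sec at h3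
      have h2 := (mem_filter.1 h3).2 (f 0) h0
      have e : (Fin.cons (f 0) (fun i : Fin k => f i.succ) : Fin (k + 1) → α) = f :=
        Fin.cons_self_tail f
      rw [e] at h2
      exact h2

end Pool.Agent.AT
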